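import Pool.Agent.Q53.Frozen.Ground

set_option autoImplicit false

/-!
# Refutation tree: the domination lemma
-/

namespace Q53.Frozen

/-- Instance data: the domination lemma. -/
def dataBT : Data where
  n := 0
  fc := 0
  par := 0
  roots := [[(1, true)],
    [(34, true)],
    [(3, false)],
    [(35, false)],
    [(67, false)],
    [(100, true)],
    [(4, true), (36, true), (68, true)],
    [(1024, true)],
    [(1029, true)],
    [(1, false), (36, false), (3, false), (5, true), (37, true), (69, true)],
    [(1, false), (36, false), (3, false), (5, false)],
    [(1, false), (36, false), (3, false), (37, false)],
    [(1, false), (36, false), (3, false), (133, false)],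
    [(1, false), (36, false), (35, false), (5, true), (37, true), (69, true)],
    [(1, false), (36, false), (35, false), (5, false)],
    [(1, false), (36, false), (35, false), (37, false)],
    [(1, false), (36, false), (35, false), (133, false)],
    [(1, false), (36, false), (100, false), (5, true), (37, true), (69, true)],
    [(1, false), (36, false), (100, false), (5, false)],
    [(1, false), (36, false), (100, false), (37, false)],
    [(1, false), (36, false), (100, false), (133, false)],
    [(1, false), (4, false), (35, false), (6, true), (38, true), (70, true)],
    [(1, false), (4, false), (35, false), (38, false)],
    [(1, false), (4, false), (35, false), (6, false)],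
    [(1, false), (4, false), (35, false), (134, false)],
    [(1, false), (4, false), (3, false), (6, true), (38, true), (70, true)],
    [(1, false), (4, false), (3, false), (38, false)],
    [(1, false), (4, false), (3, false), (6, false)],
    [(1, false), (4, false), (3, false), (134, false)],
    [(1, false), (4, false), (100, false), (6, true), (38, true), (70, true)],
    [(1, false), (4, false), (100, false), (38, false)],
    [(1, false), (4, false), (100, false), (6, false)],
    [(1, false), (4, false), (100, false), (134, false)],
    [(2, false), (68, false), (3, false), (7, true), (39, true), (71, true)],
    [(2, false), (68, false), (3, false), (7, false)],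
    [(2, false), (68, false), (3, false), (71, false)],
    [(2, false), (68, false), (3, false), (135, false)],
    [(2, false), (68, false), (67, false), (7, true), (39, true), (71, true)],
    [(2, false), (68, false), (67, false), (7, false)],
    [(2, false), (68, false), (67, false), (71, false)],
    [(2, false), (68, false), (67, false), (135, false)],
    [(2, false), (68, false), (100, false), (7, true), (39, true), (71, true)],
    [(2, false), (68, false), (100, false), (7, false)],
    [(2, false), (68, false), (100, false), (71, false)],
    [(2, false), (68, false), (100, false), (135, false)],
    [(4, false), (68, false), (3, false), (8, true), (40, true), (72, true)],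
    [(4, false), (68, false), (3, false), (8, false)],
    [(4, false), (68, false), (3, false), (136, false)],
    [(4, false), (68, false), (3, false), (72, false)],
    [(4, false), (68, false), (100, false), (8, true), (40, true), (72, true)],
    [(4, false), (68, false), (100, false), (8, false)],
    [(4, false), (68, false), (100, false), (136, false)],
    [(4, false), (68, false), (100, false), (72, false)],
    [(4, false), (68, false), (67, false), (8, true), (40, true), (72, true)],
    [(4, false), (68, false), (67, false), (8, false)],
    [(4, false), (68, false), (67, false), (136, false)],
    [(4, false), (68, false), (67, false), (72, false)],
    [(34, false), (36, false), (67, false), (9, true), (41, true), (73, true)],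
    [(34, false), (36, false), (67, false), (73, false)],
    [(34, false), (36, false), (67, false), (41, false)],
    [(34, false), (36, false), (67, false), (137, false)],
    [(34, false), (36, false), (35, false), (9, true), (41, true), (73, true)],
    [(34, false), (36, false), (35, false), (73, false)],
    [(34, false), (36, false), (35, false), (41, false)],
    [(34, false), (36, false), (35, false), (137, false)],
    [(34, false), (36, false), (100, false), (9, true), (41, true), (73, true)],
    [(34, false), (36, false), (100, false), (73, false)],
    [(34, false), (36, false), (100, false), (41, false)],
    [(34, false), (36, false), (100, false), (137, false)]]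

/-- Refutation tree. -/
def treeBT : Tree :=
 (.br 9 0x812000220b80b0000044801000003c0c9000002c0860000024046000001c0060000014045000000c0030000004 36
 (.br 9 0x13000020c08b000008c1120000224052000021c092000021410a00000a404a000009c00a0000094822000240b 105
  (.conf 9 0x1522a401200ca28c81000080000403821000002182400044138150000011810000020308948c81100051a40110 42469656)
  (.br 3 0x825000002182000004030094802418 68
   (.conf 5 0x15348022280ca1944100004000020381100000118140004413 44303384)
   (.conf 3 0x5194410015249441200cb2882418 75515160)))
 (.br 0 0 4
  (.br 5 0x8d00000ec0cc30c800810c000010400c00000fc04c00000f4 68
   (.conf 6 0x19032020200d14040418051000018c09000001a4110000019c0100000194 67928624)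
   (.conf 1 0x51900110 50856984))
  (.conf 7 0x4e38444180ce38c820010e000016408e000015c00e000015400519041000890000034 332)))

theorem checkBT : check dataBT.cl treeBT 0 0 = true := by decide +kernel

end Q53.Frozen
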