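import Mathlib

set_option autoImplicit false

/-!
# A small checker for refutation trees

A refutation tree branches on propositional variables; between two branchings it performs a list of
unit propagations, and every leaf names a falsified clause. Clauses are produced from numerical
codes by a function `cl`, literals are pairs (variable, sign), and assignments are pairs of
bitmasks (variables known to be true, variables known to be false).
-/

namespace Q53.Frozen

/-- Refutation trees. A node carries the number of unit propagations, their encoding, and either the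
code of a falsified clause or a branching variable with two subtrees. -/
inductive Tree where
  | conf (k u s : ℕ) : Tree
  | br (k u v : ℕ) (t f : Tree) : Tree

/-- The literal `q` is false for the assignment `(T, F)`. -/
def isF (T F : ℕ) (q : ℕ × Bool) : Bool := if q.2 then F.testBit q.1 else T.testBit q.1

/-- Perform `k` unit propagations encoded by `u`. -/
def runU (cl : ℕ → List (ℕ × Bool)) : ℕ → ℕ → ℕ → ℕ → Option (ℕ × ℕ)
  | 0, _, T, F => some (T, F)
  | k + 1, u, T, F =>
    let s := u % 268435456
    let l := u / 268435456 % 4096
    let v := l / 2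
    let b := l % 2 == 1
    if (cl s).all (fun q => (q.1 == v && q.2 == b) || isF T F q) then
      (if b then runU cl k (u / 1099511627776) (T ||| 1 <<< v) F
        else runU cl k (u / 1099511627776) T (F ||| 1 <<< v))
    else none

/-- Check a refutation tree. -/
def check (cl : ℕ → List (ℕ × Bool)) : Tree → ℕ → ℕ → Bool
  | .conf k u s, T, F =>
    match runU cl k u T F with
    | none => false
    | some (T', F') => (cl s).all (isF T' F')
  | .br k u v t f, T, F =>
    match runU cl k u T F with
    | none => false
    | some (T', F') => check cl t (T' ||| 1 <<< v) F' && check cl f T' (F' ||| 1 <<< v)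

/-- The literal `q` holds for the valuation `σ`. -/
def Holds (σ : ℕ → Prop) (q : ℕ × Bool) : Prop := if q.2 = true then σ q.1 else ¬ σ q.1

/-- The masks `T`, `F` describe a assignment that agrees with `σ`. -/
def Agree (σ : ℕ → Prop) (T F : ℕ) : Prop :=
  (∀ i, T.testBit i = true → σ i) ∧ (∀ i, F.testBit i = true → ¬ σ i)

theorem testBit_or_shift (T v i : ℕ) (h : (T ||| 1 <<< v).testBit i = true) :
    T.testBit i = true ∨ i = v := by
  rw [Nat.testBit_or, Bool.or_eq_true] at h
  rcases h with h | h
  · exact Or.inl h
  · right
    rw [Nat.one_shiftLeft, Nat.testBit_two_pow] at h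
    simpa using Eq.symm (by simpa using h)

theorem not_holds_of_isF {σ : ℕ → Prop} {T F : ℕ} (hA : Agree σ T F) {q : ℕ × Bool}
    (h : isF T F q = true) : ¬ Holds σ q := by
  unfold isF at h
  unfold Holds
  by_cases hq : q.2 = true
  · rw [if_pos hq] at h ⊢
    exact hA.2 _ h
  · rw [if_neg hq] at h ⊢
    exact fun h1 => h1 (hA.1 _ h)

theorem agree_true {σ : ℕ → Prop} {T F v : ℕ} (hA : Agree σ T F) (hv : σ v) :
    Agree σ (T ||| 1 <<< v) F := by
  refine ⟨fun i hi => ?_, hA.2⟩
  rcases testBit_or_shift T v i hi with h | h
  · exact hA.1 i h
  · rw [h]; exact hv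

theorem agree_false {σ : ℕ → Prop} {T F v : ℕ} (hA : Agree σ T F) (hv : ¬ σ v) :
    Agree σ T (F ||| 1 <<< v) := by
  refine ⟨hA.1, fun i hi => ?_⟩
  rcases testBit_or_shift F v i hi with h | h
  · exact hA.2 i h
  · rw [h]; exact hv

theorem runU_sound {σ : ℕ → Prop} {cl : ℕ → List (ℕ × Bool)} (hcl : ∀ s, ∃ q ∈ cl s, Holds σ q) :
    ∀ k u T F T' F', Agree σ T F → runU cl k u T F = some (T', F') → Agree σ T' F' := by
  intro k
  induction k with
  | zero =>
    intro u T F T' F' hA h
    simp only [runU, Option.some.injEq, Prod.mk.injEq] at h
    rw [← h.1, ← h.2]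
    exact hA
  | succ k ih =>
    intro u T F T' F' hA h
    rw [runU] at h
    split at h
    · rename_i hall
      obtain ⟨q, hq, hh⟩ := hcl (u % 268435456)
      rw [List.all_eq_true] at hall
      have h1 := hall q hq
      rw [Bool.or_eq_true] at h1
      rcases h1 with h1 | h1
      · rw [Bool.and_eq_true, beq_iff_eq, beq_iff_eq] at h1
        split at h
        · rename_i hb
          refine ih _ _ _ _ _ (agree_true hA ?_) h
          unfold Holds at hh
          rw [h1.2, if_pos hb, h1.1] at hh
          exact hh
        · rename_i hb
          refine ih _ _ _ _ _ (agree_false hA ?_) h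
          unfold Holds at hh
          rw [h1.2, if_neg hb, h1.1] at hh
          exact hh
      · exact absurd hh (not_holds_of_isF hA h1)
    · exact absurd h (by simp)

theorem check_sound {σ : ℕ → Prop} {cl : ℕ → List (ℕ × Bool)}
    (hcl : ∀ s, ∃ q ∈ cl s, Holds σ q) :
    ∀ t T F, Agree σ T F → check cl t T F = true → False := by
  intro t
  induction t with
  | conf k u s =>
    intro T F hA h
    rw [check] at h
    cases hr : runU cl k u T F with
    | none => rw [hr] at h; exact absurd h (by simp)
    | some p =>
      obtain ⟨T', F'⟩ := p
      rw [hr] at h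
      have hA' := runU_sound hcl _ _ _ _ _ _ hA hr
      obtain ⟨q, hq, hh⟩ := hcl s
      exact not_holds_of_isF hA' (List.all_eq_true.1 h q hq) hh
  | br k u v t f iht ihf =>
    intro T F hA h
    rw [check] at h
    cases hr : runU cl k u T F with
    | none => rw [hr] at h; exact absurd h (by simp)
    | some p =>
      obtain ⟨T', F'⟩ := p
      rw [hr] at h
      rw [Bool.and_eq_true] at h
      have hA' := runU_sound hcl _ _ _ _ _ _ hA hr
      by_cases hv : σ v
      · exact iht _ _ (agree_true hA' hv) h.1
      · exact ihf _ _ (agree_false hA' hv) h.2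

end Q53.Frozen
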