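import Pool.Agent.Q53.Frozen.Main

set_option autoImplicit false

/-!
# No 3-colourable graph without induced paths on five vertices has a frozen 4-colouring
-/

namespace Q53.Frozen

open SimpleGraph

section

variable {V : Type} {G : SimpleGraph V}

/-- There is a walk `x`, `y`, `z` whose set of neighbours is closed under adjacency. -/
theorem exists_dominating [Fintype V] [hne : Nonempty V] {p : V → Fin 3} {f : V → Fin 4}
    (S : Setup G p f) : ∃ x y z, G.Adj x y ∧ G.Adj y z ∧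
      ∀ u w, Dom G x y z u → G.Adj u w → Dom G x y z w := by
  classical
  let N : V × V × V → Finset V := fun t => Finset.univ.filter (fun v => Dom G t.1 t.2.1 t.2.2 v)
  have hN : ∀ t v, v ∈ N t ↔ Dom G t.1 t.2.1 t.2.2 v := fun t v => by simp [N]
  obtain ⟨v0⟩ := hne
  obtain ⟨w0, hw0, -⟩ := S.frozen v0 (f v0 + 1) (by
    generalize f v0 = a
    revert a
    decide)
  have hnon : (Finset.univ.filter (fun t : V × V × V => G.Adj t.1 t.2.1 ∧ G.Adj t.2.1 t.2.2)).Nonempty :=
    ⟨(v0, w0, v0), by simp [hw0, hw0.symm]⟩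
  obtain ⟨⟨x, y, z⟩, ht, hmax⟩ := Finset.exists_max_image _ (fun t => (N t).card) hnon
  simp only [Finset.mem_filter, Finset.mem_univ, true_and] at ht hmax
  obtain ⟨hxy, hyz⟩ := ht
  refine ⟨x, y, z, hxy, hyz, ?_⟩
  intro u w hu huw
  by_contra hw
  have key : ∀ a b c, ∃ v, G.Adj a b → G.Adj b c → Dom G a b c w →
      Dom G x y z v ∧ ¬ Dom G a b c v := by
    intro a b c
    by_cases h : G.Adj a b ∧ G.Adj b c ∧ Dom G a b c w
    · obtain ⟨hab, hbc, hD⟩ := h
      have hle := hmax (a, b, c) ⟨hab, hbc⟩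
      have hnot : ¬ N (x, y, z) ⊆ N (a, b, c) := by
        intro hsub
        have : N (x, y, z) ⊂ N (a, b, c) := by
          rw [Finset.ssubset_iff_of_subset hsub]
          exact ⟨w, (hN _ _).2 hD, fun h => hw ((hN _ _).1 h)⟩
        exact absurd (Finset.card_lt_card this) (not_lt.2 hle)
      rw [Finset.not_subset] at hnot
      obtain ⟨v, hv1, hv2⟩ := hnot
      exact ⟨v, fun _ _ _ => ⟨(hN _ _).1 hv1, fun h => hv2 ((hN _ _).2 h)⟩⟩
    · exact ⟨x, fun h1 h2 h3 => absurd ⟨h1, h2, h3⟩ h⟩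
  obtain ⟨v5, k5⟩ := key x y u
  obtain ⟨v6, k6⟩ := key y x u
  obtain ⟨v7, k7⟩ := key x z u
  obtain ⟨v8, k8⟩ := key x u z
  obtain ⟨v9, k9⟩ := key z y u
  obtain ⟨σ, s1, s2, -⟩ := perm3 (p x) (p y) (p x) (S.proper _ _ hxy) (S.proper _ _ hxy.symm)
  have S' := S.perm σ 1
  unfold Dom at *
  simp only [not_or] at hw k5 k6 k7 k8 k9
  refine bt_false S' v5 v6 v7 v8 v9 hxy hyz hw.1 hw.2.1 hw.2.2 huw.symm hu s1 s2 ?_ ?_ ?_ ?_ ?_
  · intro h1 h2 h3
    exact k5 h1 h2 (by rcases h3 with h | h | h; exacts [Or.inl h, Or.inr (Or.inl h), Or.inr (Or.inr h.symm)])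
  · intro h1 h2 h3
    exact k6 h1.symm h2 (by rcases h3 with h | h | h; exacts [Or.inl h, Or.inr (Or.inl h), Or.inr (Or.inr h.symm)])
  · intro h1 h2 h3
    exact k7 h1 h2 (by rcases h3 with h | h | h; exacts [Or.inl h, Or.inr (Or.inl h), Or.inr (Or.inr h.symm)])
  · intro h1 h2 h3
    exact k8 h1 h2.symm (by rcases h3 with h | h | h; exacts [Or.inl h, Or.inr (Or.inl h.symm), Or.inr (Or.inr h)])
  · intro h1 h2 h3
    exact k9 h1.symm h2 (by rcases h3 with h | h | h; exacts [Or.inl h, Or.inr (Or.inl h), Or.inr (Or.inr h.symm)])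

theorem setup_false [Fintype V] [Nonempty V] {p : V → Fin 3} {f : V → Fin 4}
    (S : Setup G p f) : False := by
  obtain ⟨x, y, z, hxy, hyz, hdom⟩ := exists_dominating S
  obtain ⟨σ, s1, s2, s3⟩ := perm3 (p x) (p y) (p z) (S.proper _ _ hxy) (S.proper _ _ hyz)
  obtain ⟨τ, t1, t2, t3⟩ := perm4 (f x) (f y) (f z) (S.fproper _ _ hxy) (S.fproper _ _ hyz)
  exact cases_false (S.perm σ τ) hxy hyz hdom s1 s2 s3 t1 t2 t3

/-- No nonempty finite 3-colourable graph without an induced path on five vertices has a frozen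
4-colouring. -/
theorem no_frozen (V : Type) [Fintype V] [Nonempty V] (G : SimpleGraph V) (h3 : G.Colorable 3)
    (h5 : IsEmpty (pathGraph 5 ↪g G)) (c : G.Coloring (Fin 4))
    (hc : ∀ v : V, ∀ i : Fin 4, i ≠ c v → ∃ w : V, G.Adj v w ∧ c w = i) : False := by
  obtain ⟨p⟩ := h3
  exact setup_false (G := G) (p := p) (f := c)
    { proper := fun u v h => p.valid h
      fproper := fun u v h => c.valid h
      frozen := hc
      p5 := p5_of_isEmpty h5 }

end

end Q53.Frozen
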