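import Pool.Agent.Q53.Frozen.Check

set_option autoImplicit false

/-!
# Ground instances about graphs without an induced path on five vertices

Vertices `x 0, ..., x 31` of a graph are described by propositional variables: variable `32 i + j`
(`i ≤ j < 32`) says that `x i` and `x j` are adjacent, variable `1024 + 4 i + c` (`c < 4`) says that
the vertex `x i` has colour `c` in a given proper 3-colouring `p`.
-/

namespace Q53.Frozen

/-- Variable for the adjacency of `x i` and `x j`. -/
def ev (i j : ℕ) : ℕ := if i ≤ j then 32 * i + j else 32 * j + i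

/-- Variable for `p (x i) = c`. -/
def pv (i c : ℕ) : ℕ := 1024 + 4 * i + c % 4

/-- A tautology. -/
def taut : List (ℕ × Bool) := [(0, true), (0, false)]

/-- Data of an instance: number `n` of vertices, colours in the frozen colouring (two binary digits
for every vertex), parents (five binary digits for every vertex) and clauses known at the root. -/
structure Data where
  n : ℕ
  fc : ℕ
  par : ℕ
  roots : List (List (ℕ × Bool))

/-- Colour of vertex `i` in the frozen colouring. -/
def Data.col (D : Data) (i : ℕ) : ℕ := (D.fc >>> (2 * i)) % 4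

/-- Parent of vertex `i`. -/
def Data.parent (D : Data) (i : ℕ) : ℕ := (D.par >>> (5 * i)) % 32

/-- The positive adjacency literal of `i`, `j`, omitted when both have the same frozen colour. -/
def Data.pe (D : Data) (i j : ℕ) : List (ℕ × Bool) :=
  if (i < D.n ∧ j < D.n) ∧ D.col i = D.col j then [] else [(ev i j, true)]

/-- The clause with a given code. -/
def Data.cl (D : Data) (s : ℕ) : List (ℕ × Bool) :=
  let t := s % 8
  let a := s / 8 % 32
  let b := s / 256 % 32
  let c := s / 8192 % 32
  let d := s / 262144 % 32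
  let e := s / 8388608 % 32
  if t = 0 then
    (ev a b, false) :: (ev b c, false) :: (ev c d, false) :: (ev d e, false) ::
      (D.pe a c ++ (D.pe a d ++ (D.pe a e ++ (D.pe b d ++ (D.pe b e ++ D.pe c e)))))
  else if t = 1 then [(pv a 0, true), (pv a 1, true), (pv a 2, true)]
  else if t = 2 then (if b % 4 = c % 4 then taut else [(pv a b, false), (pv a c, false)])
  else if t = 3 then [(ev a b, false), (pv a c, false), (pv b c, false)]
  else if t = 4 then (match D.roots[a + 32 * b]? with
    | some l => l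
    | none => taut)
  else if t = 5 then (if 3 ≤ a ∧ a < D.n then [(ev (D.parent a) a, true)] else taut)
  else if t = 6 then (if a < D.n then D.pe 0 a ++ (D.pe 1 a ++ D.pe 2 a) else taut)
  else taut

section

variable {V : Type*} (G : SimpleGraph V) (p : V → Fin 3) (x : ℕ → V)

/-- The valuation. -/
def val (v : ℕ) : Prop :=
  if v < 1024 then G.Adj (x (v / 32)) (x (v % 32)) else (p (x ((v - 1024) / 4))).val = (v - 1024) % 4

theorem val_ev {i j : ℕ} (hi : i < 32) (hj : j < 32) : val G p x (ev i j) ↔ G.Adj (x i) (x j) := by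
  unfold val ev
  split_ifs with h1 h2 h2
  · rw [show (32 * i + j) / 32 = i by omega, show (32 * i + j) % 32 = j by omega]
  · omega
  · rw [show (32 * j + i) / 32 = j by omega, show (32 * j + i) % 32 = i by omega]
    exact ⟨fun h => h.symm, fun h => h.symm⟩
  · omega

theorem val_pv (i c : ℕ) : val G p x (pv i c) ↔ (p (x i)).val = c % 4 := by
  unfold val pv
  rw [if_neg (by omega), show (1024 + 4 * i + c % 4 - 1024) / 4 = i by omega,
    show (1024 + 4 * i + c % 4 - 1024) % 4 = c % 4 by omega]

theorem taut_ok (σ : ℕ → Prop) : ∃ q ∈ taut, Holds σ q := by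
  by_cases h : σ 0
  · exact ⟨(0, true), by simp [taut], by simpa [Holds] using h⟩
  · exact ⟨(0, false), by simp [taut], by simpa [Holds] using h⟩

/-- The facts used about a graph instance. -/
structure Facts (D : Data) (f : V → Fin 4) : Prop where
  n_le : D.n ≤ 32
  proper : ∀ u v, G.Adj u v → p u ≠ p v
  frozen : ∀ u v, G.Adj u v → f u ≠ f v
  p5 : ∀ a b c d e, G.Adj a b → G.Adj b c → G.Adj c d → G.Adj d e →
    G.Adj a c ∨ G.Adj a d ∨ G.Adj a e ∨ G.Adj b d ∨ G.Adj b e ∨ G.Adj c e
  cols : ∀ i < D.n, (f (x i)).val = D.col i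
  pars : ∀ i < D.n, 3 ≤ i → D.parent i < 32 ∧ G.Adj (x (D.parent i)) (x i)
  dom : ∀ i < D.n, G.Adj (x 0) (x i) ∨ G.Adj (x 1) (x i) ∨ G.Adj (x 2) (x i)
  roots : ∀ l ∈ D.roots, ∃ q ∈ l, Holds (val G p x) q

variable {G p x} {D : Data} {f : V → Fin 4}

theorem pe_ok (hF : Facts G p x D f) {i j : ℕ} (hi : i < 32) (hj : j < 32)
    (h : G.Adj (x i) (x j)) : (ev i j, true) ∈ D.pe i j := by
  unfold Data.pe
  rw [if_neg]
  · exact List.mem_singleton.2 rfl
  · rintro ⟨⟨h1, h2⟩, h3⟩
    have h4 := hF.frozen _ _ h
    exact h4 (Fin.ext (by rw [hF.cols i h1, hF.cols j h2, h3]))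

theorem holds_ev {i j : ℕ} (hi : i < 32) (hj : j < 32) (h : G.Adj (x i) (x j)) :
    Holds (val G p x) (ev i j, true) := by
  unfold Holds
  rw [if_pos rfl]
  exact (val_ev G p x hi hj).2 h

theorem holds_nev {i j : ℕ} (hi : i < 32) (hj : j < 32) (h : ¬ G.Adj (x i) (x j)) :
    Holds (val G p x) (ev i j, false) := by
  unfold Holds
  rw [if_neg (by simp)]
  exact fun h1 => h ((val_ev G p x hi hj).1 h1)

theorem holds_pv {i c : ℕ} (h : (p (x i)).val = c % 4) : Holds (val G p x) (pv i c, true) := by
  unfold Holds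
  rw [if_pos rfl]
  exact (val_pv G p x i c).2 h

theorem holds_npv {i c : ℕ} (h : (p (x i)).val ≠ c % 4) : Holds (val G p x) (pv i c, false) := by
  unfold Holds
  rw [if_neg (by simp)]
  exact fun h1 => h ((val_pv G p x i c).1 h1)

theorem cl_ok (hF : Facts G p x D f) (s : ℕ) : ∃ q ∈ D.cl s, Holds (val G p x) q := by
  have hn := hF.n_le
  have ha : s / 8 % 32 < 32 := Nat.mod_lt _ (by norm_num)
  have hb : s / 256 % 32 < 32 := Nat.mod_lt _ (by norm_num)
  have hc : s / 8192 % 32 < 32 := Nat.mod_lt _ (by norm_num)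
  have hd : s / 262144 % 32 < 32 := Nat.mod_lt _ (by norm_num)
  have he : s / 8388608 % 32 < 32 := Nat.mod_lt _ (by norm_num)
  unfold Data.cl
  simp only
  generalize s / 8 % 32 = a at *
  generalize s / 256 % 32 = b at *
  generalize s / 8192 % 32 = c at *
  generalize s / 262144 % 32 = d at *
  generalize s / 8388608 % 32 = e at *
  split_ifs with h0 h1 h2 h2' h3 h4 h5 h5' h6 h6'
  · by_cases e1 : G.Adj (x a) (x b)
    swap
    · exact ⟨_, List.mem_cons_self, holds_nev ha hb e1⟩
    by_cases e2 : G.Adj (x b) (x c)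
    swap
    · exact ⟨_, by simp, holds_nev hb hc e2⟩
    by_cases e3 : G.Adj (x c) (x d)
    swap
    · exact ⟨_, by simp, holds_nev hc hd e3⟩
    by_cases e4 : G.Adj (x d) (x e)
    swap
    · exact ⟨_, by simp, holds_nev hd he e4⟩
    rcases hF.p5 _ _ _ _ _ e1 e2 e3 e4 with h | h | h | h | h | h
    · exact ⟨(ev a c, true), by simp [pe_ok hF ha hc h], holds_ev ha hc h⟩
    · exact ⟨(ev a d, true), by simp [pe_ok hF ha hd h], holds_ev ha hd h⟩
    · exact ⟨(ev a e, true), by simp [pe_ok hF ha he h], holds_ev ha he h⟩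
    · exact ⟨(ev b d, true), by simp [pe_ok hF hb hd h], holds_ev hb hd h⟩
    · exact ⟨(ev b e, true), by simp [pe_ok hF hb he h], holds_ev hb he h⟩
    · exact ⟨(ev c e, true), by simp [pe_ok hF hc he h], holds_ev hc he h⟩
  · have h := (p (x a)).isLt
    have h' : (p (x a)).val = 0 ∨ (p (x a)).val = 1 ∨ (p (x a)).val = 2 := by omega
    rcases h' with h' | h' | h'
    · exact ⟨_, List.mem_cons_self, holds_pv (by rw [h'])⟩
    · exact ⟨(pv a 1, true), by simp, holds_pv (by rw [h'])⟩
    · exact ⟨(pv a 2, true), by simp, holds_pv (by rw [h'])⟩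
  · exact taut_ok _
  · by_cases h : (p (x a)).val = b % 4
    · exact ⟨(pv a c, false), by simp, holds_npv (by rw [h]; exact h2')⟩
    · exact ⟨(pv a b, false), by simp, holds_npv h⟩
  · by_cases e1 : G.Adj (x a) (x b)
    swap
    · exact ⟨_, List.mem_cons_self, holds_nev ha hb e1⟩
    by_cases h : (p (x a)).val = c % 4
    · refine ⟨(pv b c, false), by simp, holds_npv fun h' => ?_⟩
      exact hF.proper _ _ e1 (Fin.ext (by rw [h, h']))
    · exact ⟨(pv a c, false), by simp, holds_npv h⟩
  · cases hr : D.roots[a + 32 * b]? with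
    | none => exact taut_ok _
    | some l => exact hF.roots l (List.mem_of_getElem? hr)
  · have h := hF.pars a h5'.2 h5'.1
    exact ⟨_, List.mem_cons_self, holds_ev h.1 ha h.2⟩
  · exact taut_ok _
  · rcases hF.dom a h6' with h | h | h
    · exact ⟨(ev 0 a, true), by simp [pe_ok hF (by norm_num) ha h], holds_ev (by norm_num) ha h⟩
    · exact ⟨(ev 1 a, true), by simp [pe_ok hF (by norm_num) ha h], holds_ev (by norm_num) ha h⟩
    · exact ⟨(ev 2 a, true), by simp [pe_ok hF (by norm_num) ha h], holds_ev (by norm_num) ha h⟩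
  · exact taut_ok _
  · exact taut_ok _

/-- An instance whose refutation tree is accepted does not exist. -/
theorem refute (hF : Facts G p x D f) (t : Tree) (h : check D.cl t 0 0 = true) : False :=
  check_sound (cl_ok hF) t 0 0 ⟨fun i hi => by simp at hi, fun i hi => by simp at hi⟩ h

end

end Q53.Frozen
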