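import Pool.Agent.Q53.Frozen.Seq
import Pool.Agent.Q53.Frozen.CertT
import Pool.Agent.Q53.Frozen.CertP1
import Pool.Agent.Q53.Frozen.CertP2
import Pool.Agent.Q53.Frozen.CertP3
import Pool.Agent.Q53.Frozen.CertP4
import Pool.Agent.Q53.Frozen.CertBT

set_option autoImplicit false
set_option linter.unusedSimpArgs false

/-!
# No graph without induced paths on five vertices that is 3-colourable has a frozen 4-colouring
-/

namespace Q53.Frozen

open SimpleGraph

section

variable {V : Type} {G : SimpleGraph V}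

/-- `v` is adjacent to one of `x`, `y`, `z`. -/
def Dom (G : SimpleGraph V) (x y z v : V) : Prop := G.Adj x v ∨ G.Adj y v ∨ G.Adj z v

/-- The common hypotheses of all cases. -/
structure Setup (G : SimpleGraph V) (p : V → Fin 3) (f : V → Fin 4) : Prop where
  proper : ∀ u v, G.Adj u v → p u ≠ p v
  fproper : ∀ u v, G.Adj u v → f u ≠ f v
  frozen : ∀ v i, i ≠ f v → ∃ w, G.Adj v w ∧ f w = i
  p5 : ∀ a b c d e, G.Adj a b → G.Adj b c → G.Adj c d → G.Adj d e →
    G.Adj a c ∨ G.Adj a d ∨ G.Adj a e ∨ G.Adj b d ∨ G.Adj b e ∨ G.Adj c e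

theorem Setup.perm {p : V → Fin 3} {f : V → Fin 4} (S : Setup G p f) (σ : Equiv.Perm (Fin 3))
    (τ : Equiv.Perm (Fin 4)) : Setup G (fun v => σ (p v)) (fun v => τ (f v)) where
  proper u v h h' := S.proper u v h (σ.injective h')
  fproper u v h h' := S.fproper u v h (τ.injective h')
  frozen v i hi := by
    obtain ⟨w, h1, h2⟩ := S.frozen v (τ.symm i) (fun h => hi (by simp [← h]))
    exact ⟨w, h1, by simp [h2]⟩
  p5 := S.p5

/-- In each of the five cases the instance is realised, unless a domination fails. -/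
theorem case_false {p : V → Fin 3} {f : V → Fin 4} (S : Setup G p f) {x y z : V}
    (hxy : G.Adj x y) (hyz : G.Adj y z)
    (hdom : ∀ u w, Dom G x y z u → G.Adj u w → Dom G x y z w) (D : Data) (hD : D.Ok)
    (h0 : (f x).val = D.col 0) (h1 : (f y).val = D.col 1) (h2 : (f z).val = D.col 2)
    (hroots : ∀ X : ℕ → V, X 0 = x → X 1 = y → X 2 = z →
      ∀ l ∈ D.roots, ∃ q ∈ l, Holds (val G p X) q)
    (t : Tree) (ht : check D.cl t 0 0 = true) : False := by
  obtain ⟨X, X0, X1, X2, hX⟩ := exists_seq S.frozen D hD x y z h0 h1 h2 D.n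
  have hd : ∀ i, i < D.n → Dom G x y z (X i) := by
    intro i
    induction i using Nat.strong_induction_on with
    | _ i ih =>
      intro hi
      by_cases h3 : 3 ≤ i
      · have hok := hD.2 i hi h3
        exact hdom _ _ (ih _ hok.1 (lt_trans hok.1 hi)) ((hX i hi hi).2 h3)
      · have h3' : i < 3 := by omega
        interval_cases i
        · rw [X0]; exact Or.inr (Or.inl hxy.symm)
        · rw [X1]; exact Or.inl hxy
        · rw [X2]; exact Or.inr (Or.inl hyz)
  refine refute (G := G) (p := p) (x := X) (D := D) (f := f) ?_ t ht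
  exact {
    n_le := hD.1
    proper := S.proper
    frozen := S.fproper
    p5 := S.p5
    cols := fun i hi => (hX i hi hi).1
    pars := fun i hi h3 => ⟨lt_of_lt_of_le (lt_trans (hD.2 i hi h3).1 hi) hD.1, (hX i hi hi).2 h3⟩
    dom := fun i hi => by
      have := hd i hi
      unfold Dom at this
      rw [X0, X1, X2]
      exact this
    roots := hroots X X0 X1 X2 }

theorem cases_false {p : V → Fin 3} {f : V → Fin 4} (S : Setup G p f) {x y z : V}
    (hxy : G.Adj x y) (hyz : G.Adj y z)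
    (hdom : ∀ u w, Dom G x y z u → G.Adj u w → Dom G x y z w)
    (px : p x = 0) (py : p y = 1) (pz : p z = 0 ∨ p z = 2)
    (fx : f x = 0) (fy : f y = 1) (fz : f z = 0 ∨ f z = 2) : False := by
  rcases pz with pz | pz <;> rcases fz with fz | fz
  · refine case_false S hxy hyz hdom dataP1 (by decide +kernel) (by rw [fx]; decide +kernel)
      (by rw [fy]; decide +kernel) (by rw [fz]; decide +kernel) ?_ treeP1 checkP1
    intro X X0 X1 X2 l hl
    simp only [dataP1, List.mem_cons, List.not_mem_nil, or_false] at hl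
    rcases hl with rfl | rfl | rfl | rfl | rfl <;>
      simp [Holds, val, X0, X1, X2, hxy, hyz, px, py, pz]
  · refine case_false S hxy hyz hdom dataP2 (by decide +kernel) (by rw [fx]; decide +kernel)
      (by rw [fy]; decide +kernel) (by rw [fz]; decide +kernel) ?_ treeP2 checkP2
    intro X X0 X1 X2 l hl
    have hxz : ¬ G.Adj x z := fun h => S.proper _ _ h (by rw [px, pz])
    simp only [dataP2, List.mem_cons, List.not_mem_nil, or_false] at hl
    rcases hl with rfl | rfl | rfl | rfl | rfl | rfl <;>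
      simp [Holds, val, X0, X1, X2, hxy, hyz, px, py, pz, hxz]
  · refine case_false S hxy hyz hdom dataP3 (by decide +kernel) (by rw [fx]; decide +kernel)
      (by rw [fy]; decide +kernel) (by rw [fz]; decide +kernel) ?_ treeP3 checkP3
    intro X X0 X1 X2 l hl
    simp only [dataP3, List.mem_cons, List.not_mem_nil, or_false] at hl
    rcases hl with rfl | rfl | rfl | rfl | rfl <;>
      simp [Holds, val, X0, X1, X2, hxy, hyz, px, py, pz]
  · by_cases hxz : G.Adj x z
    · refine case_false S hxy hyz hdom dataT (by decide +kernel) (by rw [fx]; decide +kernel)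
        (by rw [fy]; decide +kernel) (by rw [fz]; decide +kernel) ?_ treeT checkT
      intro X X0 X1 X2 l hl
      simp only [dataT, List.mem_cons, List.not_mem_nil, or_false] at hl
      rcases hl with rfl | rfl | rfl | rfl | rfl | rfl <;>
        simp [Holds, val, X0, X1, X2, hxy, hyz, px, py, pz, hxz]
    · refine case_false S hxy hyz hdom dataP4 (by decide +kernel) (by rw [fx]; decide +kernel)
        (by rw [fy]; decide +kernel) (by rw [fz]; decide +kernel) ?_ treeP4 checkP4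
      intro X X0 X1 X2 l hl
      simp only [dataP4, List.mem_cons, List.not_mem_nil, or_false] at hl
      rcases hl with rfl | rfl | rfl | rfl | rfl | rfl <;>
        simp [Holds, val, X0, X1, X2, hxy, hyz, px, py, pz, hxz]

set_option maxHeartbeats 4000000 in
/-- The instance of the domination lemma. -/
theorem bt_false {p : V → Fin 3} {f : V → Fin 4} (S : Setup G p f) {x y z u w : V}
    (v5 v6 v7 v8 v9 : V)
    (hxy : G.Adj x y) (hyz : G.Adj y z) (hxw : ¬ G.Adj x w) (hyw : ¬ G.Adj y w)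
    (hzw : ¬ G.Adj z w) (hwu : G.Adj w u) (hu : G.Adj x u ∨ G.Adj y u ∨ G.Adj z u)
    (px : p x = 0) (py : p y = 1)
    (k5 : G.Adj x y → G.Adj y u → (G.Adj x w ∨ G.Adj y w ∨ G.Adj w u) →
      (G.Adj x v5 ∨ G.Adj y v5 ∨ G.Adj z v5) ∧ ¬ G.Adj x v5 ∧ ¬ G.Adj y v5 ∧ ¬ G.Adj u v5)
    (k6 : G.Adj x y → G.Adj x u → (G.Adj y w ∨ G.Adj x w ∨ G.Adj w u) →
      (G.Adj x v6 ∨ G.Adj y v6 ∨ G.Adj z v6) ∧ ¬ G.Adj y v6 ∧ ¬ G.Adj x v6 ∧ ¬ G.Adj u v6)
    (k7 : G.Adj x z → G.Adj z u → (G.Adj x w ∨ G.Adj z w ∨ G.Adj w u) →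
      (G.Adj x v7 ∨ G.Adj y v7 ∨ G.Adj z v7) ∧ ¬ G.Adj x v7 ∧ ¬ G.Adj z v7 ∧ ¬ G.Adj u v7)
    (k8 : G.Adj x u → G.Adj z u → (G.Adj x w ∨ G.Adj w u ∨ G.Adj z w) →
      (G.Adj x v8 ∨ G.Adj y v8 ∨ G.Adj z v8) ∧ ¬ G.Adj x v8 ∧ ¬ G.Adj u v8 ∧ ¬ G.Adj z v8)
    (k9 : G.Adj y z → G.Adj y u → (G.Adj z w ∨ G.Adj y w ∨ G.Adj w u) →
      (G.Adj x v9 ∨ G.Adj y v9 ∨ G.Adj z v9) ∧ ¬ G.Adj z v9 ∧ ¬ G.Adj y v9 ∧ ¬ G.Adj u v9) :
    False := by
  let X : ℕ → V := fun i => match i with
    | 0 => x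
    | 1 => y
    | 2 => z
    | 3 => w
    | 4 => u
    | 5 => v5
    | 6 => v6
    | 7 => v7
    | 8 => v8
    | _ => v9
  have X0 : X 0 = x := rfl
  have X1 : X 1 = y := rfl
  have X2 : X 2 = z := rfl
  have X3 : X 3 = w := rfl
  have X4 : X 4 = u := rfl
  have X5 : X 5 = v5 := rfl
  have X6 : X 6 = v6 := rfl
  have X7 : X 7 = v7 := rfl
  have X8 : X 8 = v8 := rfl
  have X9 : X 9 = v9 := rfl
  clear_value X
  refine refute (G := G) (p := p) (x := X) (D := dataBT) (f := f) ?_ treeBT checkBT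
  refine
    { n_le := by decide +kernel
      proper := S.proper
      frozen := S.fproper
      p5 := S.p5
      cols := fun i hi => absurd hi (by simp [dataBT])
      pars := fun i hi => absurd hi (by simp [dataBT])
      dom := fun i hi => absurd hi (by simp [dataBT])
      roots := ?_ }
  intro l hl
  simp only [dataBT, List.mem_cons, List.not_mem_nil, or_false] at hl
  rcases hl with rfl | hl
  · simp [Holds, val, X0, X1, hxy]
  rcases hl with rfl | hl
  · simp [Holds, val, X1, X2, hyz]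
  rcases hl with rfl | hl
  · simp [Holds, val, X0, X3, hxw]
  rcases hl with rfl | hl
  · simp [Holds, val, X1, X3, hyw]
  rcases hl with rfl | hl
  · simp [Holds, val, X2, X3, hzw]
  rcases hl with rfl | hl
  · simp [Holds, val, X3, X4, hwu]
  rcases hl with rfl | hl
  · simp [Holds, val, X0, X1, X2, X4, hu]
  rcases hl with rfl | hl
  · simp [Holds, val, X0, px]
  rcases hl with rfl | hl
  · simp [Holds, val, X1, py]
  rcases hl with rfl | rfl | rfl | rfl | rfl | rfl | rfl | rfl | rfl | rfl | rfl | rfl | hl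
  · clear k6 k7 k8 k9; simp [Holds, val, X0, X1, X2, X3, X4, X5]; tauto
  · clear k6 k7 k8 k9; simp [Holds, val, X0, X1, X2, X3, X4, X5]; tauto
  · clear k6 k7 k8 k9; simp [Holds, val, X0, X1, X2, X3, X4, X5]; tauto
  · clear k6 k7 k8 k9; simp [Holds, val, X0, X1, X2, X3, X4, X5]; tauto
  · clear k6 k7 k8 k9; simp [Holds, val, X0, X1, X2, X3, X4, X5]; tauto
  · clear k6 k7 k8 k9; simp [Holds, val, X0, X1, X2, X3, X4, X5]; tauto
  · clear k6 k7 k8 k9; simp [Holds, val, X0, X1, X2, X3, X4, X5]; tauto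
  · clear k6 k7 k8 k9; simp [Holds, val, X0, X1, X2, X3, X4, X5]; tauto
  · clear k6 k7 k8 k9; simp [Holds, val, X0, X1, X2, X3, X4, X5]; tauto
  · clear k6 k7 k8 k9; simp [Holds, val, X0, X1, X2, X3, X4, X5]; tauto
  · clear k6 k7 k8 k9; simp [Holds, val, X0, X1, X2, X3, X4, X5]; tauto
  · clear k6 k7 k8 k9; simp [Holds, val, X0, X1, X2, X3, X4, X5]; tauto
  rcases hl with rfl | rfl | rfl | rfl | rfl | rfl | rfl | rfl | rfl | rfl | rfl | rfl | hl
  · clear k5 k7 k8 k9; simp [Holds, val, X0, X1, X2, X3, X4, X6]; tauto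
  · clear k5 k7 k8 k9; simp [Holds, val, X0, X1, X2, X3, X4, X6]; tauto
  · clear k5 k7 k8 k9; simp [Holds, val, X0, X1, X2, X3, X4, X6]; tauto
  · clear k5 k7 k8 k9; simp [Holds, val, X0, X1, X2, X3, X4, X6]; tauto
  · clear k5 k7 k8 k9; simp [Holds, val, X0, X1, X2, X3, X4, X6]; tauto
  · clear k5 k7 k8 k9; simp [Holds, val, X0, X1, X2, X3, X4, X6]; tauto
  · clear k5 k7 k8 k9; simp [Holds, val, X0, X1, X2, X3, X4, X6]; tauto
  · clear k5 k7 k8 k9; simp [Holds, val, X0, X1, X2, X3, X4, X6]; tauto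
  · clear k5 k7 k8 k9; simp [Holds, val, X0, X1, X2, X3, X4, X6]; tauto
  · clear k5 k7 k8 k9; simp [Holds, val, X0, X1, X2, X3, X4, X6]; tauto
  · clear k5 k7 k8 k9; simp [Holds, val, X0, X1, X2, X3, X4, X6]; tauto
  · clear k5 k7 k8 k9; simp [Holds, val, X0, X1, X2, X3, X4, X6]; tauto
  rcases hl with rfl | rfl | rfl | rfl | rfl | rfl | rfl | rfl | rfl | rfl | rfl | rfl | hl
  · clear k5 k6 k8 k9; simp [Holds, val, X0, X1, X2, X3, X4, X7]; tauto
  · clear k5 k6 k8 k9; simp [Holds, val, X0, X1, X2, X3, X4, X7]; tauto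
  · clear k5 k6 k8 k9; simp [Holds, val, X0, X1, X2, X3, X4, X7]; tauto
  · clear k5 k6 k8 k9; simp [Holds, val, X0, X1, X2, X3, X4, X7]; tauto
  · clear k5 k6 k8 k9; simp [Holds, val, X0, X1, X2, X3, X4, X7]; tauto
  · clear k5 k6 k8 k9; simp [Holds, val, X0, X1, X2, X3, X4, X7]; tauto
  · clear k5 k6 k8 k9; simp [Holds, val, X0, X1, X2, X3, X4, X7]; tauto
  · clear k5 k6 k8 k9; simp [Holds, val, X0, X1, X2, X3, X4, X7]; tauto
  · clear k5 k6 k8 k9; simp [Holds, val, X0, X1, X2, X3, X4, X7]; tauto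
  · clear k5 k6 k8 k9; simp [Holds, val, X0, X1, X2, X3, X4, X7]; tauto
  · clear k5 k6 k8 k9; simp [Holds, val, X0, X1, X2, X3, X4, X7]; tauto
  · clear k5 k6 k8 k9; simp [Holds, val, X0, X1, X2, X3, X4, X7]; tauto
  rcases hl with rfl | rfl | rfl | rfl | rfl | rfl | rfl | rfl | rfl | rfl | rfl | rfl | hl
  · clear k5 k6 k7 k9; simp [Holds, val, X0, X1, X2, X3, X4, X8]; tauto
  · clear k5 k6 k7 k9; simp [Holds, val, X0, X1, X2, X3, X4, X8]; tauto
  · clear k5 k6 k7 k9; simp [Holds, val, X0, X1, X2, X3, X4, X8]; tauto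
  · clear k5 k6 k7 k9; simp [Holds, val, X0, X1, X2, X3, X4, X8]; tauto
  · clear k5 k6 k7 k9; simp [Holds, val, X0, X1, X2, X3, X4, X8]; tauto
  · clear k5 k6 k7 k9; simp [Holds, val, X0, X1, X2, X3, X4, X8]; tauto
  · clear k5 k6 k7 k9; simp [Holds, val, X0, X1, X2, X3, X4, X8]; tauto
  · clear k5 k6 k7 k9; simp [Holds, val, X0, X1, X2, X3, X4, X8]; tauto
  · clear k5 k6 k7 k9; simp [Holds, val, X0, X1, X2, X3, X4, X8]; tauto
  · clear k5 k6 k7 k9; simp [Holds, val, X0, X1, X2, X3, X4, X8]; tauto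
  · clear k5 k6 k7 k9; simp [Holds, val, X0, X1, X2, X3, X4, X8]; tauto
  · clear k5 k6 k7 k9; simp [Holds, val, X0, X1, X2, X3, X4, X8]; tauto
  rcases hl with rfl | rfl | rfl | rfl | rfl | rfl | rfl | rfl | rfl | rfl | rfl | rfl
  · clear k5 k6 k7 k8; simp [Holds, val, X0, X1, X2, X3, X4, X9]; tauto
  · clear k5 k6 k7 k8; simp [Holds, val, X0, X1, X2, X3, X4, X9]; tauto
  · clear k5 k6 k7 k8; simp [Holds, val, X0, X1, X2, X3, X4, X9]; tauto
  · clear k5 k6 k7 k8; simp [Holds, val, X0, X1, X2, X3, X4, X9]; tauto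
  · clear k5 k6 k7 k8; simp [Holds, val, X0, X1, X2, X3, X4, X9]; tauto
  · clear k5 k6 k7 k8; simp [Holds, val, X0, X1, X2, X3, X4, X9]; tauto
  · clear k5 k6 k7 k8; simp [Holds, val, X0, X1, X2, X3, X4, X9]; tauto
  · clear k5 k6 k7 k8; simp [Holds, val, X0, X1, X2, X3, X4, X9]; tauto
  · clear k5 k6 k7 k8; simp [Holds, val, X0, X1, X2, X3, X4, X9]; tauto
  · clear k5 k6 k7 k8; simp [Holds, val, X0, X1, X2, X3, X4, X9]; tauto
  · clear k5 k6 k7 k8; simp [Holds, val, X0, X1, X2, X3, X4, X9]; tauto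
  · clear k5 k6 k7 k8; simp [Holds, val, X0, X1, X2, X3, X4, X9]; tauto

end

end Q53.Frozen
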