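import Pool.Agent.Q53.Frozen.Ground

set_option autoImplicit false

/-!
# Sequences of witnesses, induced paths and colour permutations
-/

namespace Q53.Frozen

open SimpleGraph

section

variable {V : Type} {G : SimpleGraph V}

/-- Without an induced path on five vertices, every walk on five vertices has a chord. -/
theorem p5_of_isEmpty (h : IsEmpty (pathGraph 5 ↪g G)) (a b c d e : V) (ab : G.Adj a b)
    (bc : G.Adj b c) (cd : G.Adj c d) (de : G.Adj d e) :
    G.Adj a c ∨ G.Adj a d ∨ G.Adj a e ∨ G.Adj b d ∨ G.Adj b e ∨ G.Adj c e := by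
  by_contra hn
  simp only [not_or] at hn
  obtain ⟨ac, ad, ae, bd, be, ce⟩ := hn
  have nab : a ≠ b := ab.ne
  have nac : a ≠ c := by rintro rfl; exact ad cd
  have nad : a ≠ d := by rintro rfl; exact ac cd.symm
  have nae : a ≠ e := by rintro rfl; exact ad de.symm
  have nbc : b ≠ c := bc.ne
  have nbd : b ≠ d := by rintro rfl; exact be de
  have nbe : b ≠ e := by rintro rfl; exact bd de.symm
  have ncd : c ≠ d := cd.ne
  have nce : c ≠ e := by rintro rfl; exact be bc
  have nde : d ≠ e := de.ne
  refine h.false ⟨⟨![a, b, c, d, e], ?_⟩, ?_⟩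
  · intro i j hij
    fin_cases i <;> fin_cases j <;>
      simp_all
  · have ca : ¬ G.Adj c a := fun h => ac h.symm
    have da : ¬ G.Adj d a := fun h => ad h.symm
    have ea : ¬ G.Adj e a := fun h => ae h.symm
    have db : ¬ G.Adj d b := fun h => bd h.symm
    have eb : ¬ G.Adj e b := fun h => be h.symm
    have ec : ¬ G.Adj e c := fun h => ce h.symm
    intro i j
    show G.Adj (![a, b, c, d, e] i) (![a, b, c, d, e] j) ↔ (pathGraph 5).Adj i j
    fin_cases i <;> fin_cases j <;>
      simp [pathGraph_adj, ab, bc, cd, de, ac, ad, ae, bd, be, ce, ab.symm, bc.symm, cd.symm,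
        de.symm, ca, da, ea, db, eb, ec]

end

theorem perm4 : ∀ a b c : Fin 4, a ≠ b → b ≠ c →
    ∃ σ : Equiv.Perm (Fin 4), σ a = 0 ∧ σ b = 1 ∧ (σ c = 0 ∨ σ c = 2) := by
  decide +kernel

theorem perm3 : ∀ a b c : Fin 3, a ≠ b → b ≠ c →
    ∃ σ : Equiv.Perm (Fin 3), σ a = 0 ∧ σ b = 1 ∧ (σ c = 0 ∨ σ c = 2) := by
  decide +kernel

/-- The condition on the parent table that makes the recursion work. -/
def Data.Ok (D : Data) : Prop :=
  D.n ≤ 32 ∧ ∀ i < D.n, 3 ≤ i → D.parent i < i ∧ D.col (D.parent i) ≠ D.col i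

instance (D : Data) : Decidable D.Ok := by unfold Data.Ok; infer_instance

theorem exists_seq {V : Type} {G : SimpleGraph V} {f : V → Fin 4}
    (hw : ∀ v i, i ≠ f v → ∃ w, G.Adj v w ∧ f w = i) (D : Data) (hD : D.Ok) (r0 r1 r2 : V)
    (h0 : (f r0).val = D.col 0) (h1 : (f r1).val = D.col 1) (h2 : (f r2).val = D.col 2) (m : ℕ) :
    ∃ x : ℕ → V, x 0 = r0 ∧ x 1 = r1 ∧ x 2 = r2 ∧
      ∀ i < m, i < D.n → (f (x i)).val = D.col i ∧ (3 ≤ i → G.Adj (x (D.parent i)) (x i)) := by
  induction m with
  | zero =>
    refine ⟨fun i => if i = 0 then r0 else if i = 1 then r1 else r2, by simp, by simp, by simp, ?_⟩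
    intro i hi
    omega
  | succ m ih =>
    obtain ⟨x, x0, x1, x2, hx⟩ := ih
    by_cases hm : 3 ≤ m ∧ m < D.n
    · have hok := hD.2 m hm.2 hm.1
      have hpar := hx (D.parent m) hok.1 (lt_trans hok.1 hm.2)
      have hc4 : D.col m < 4 := Nat.mod_lt _ (by norm_num)
      obtain ⟨w, hw1, hw2⟩ := hw (x (D.parent m)) ⟨D.col m, hc4⟩ (by
        intro h
        apply hok.2
        rw [← hpar.1, ← h])
      refine ⟨fun i => if i = m then w else x i, ?_, ?_, ?_, ?_⟩
      · show (if 0 = m then w else x 0) = r0
        rw [if_neg (by omega), x0]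
      · show (if 1 = m then w else x 1) = r1
        rw [if_neg (by omega), x1]
      · show (if 2 = m then w else x 2) = r2
        rw [if_neg (by omega), x2]
      · intro i hi hin
        show (f (if i = m then w else x i)).val = D.col i ∧
          (3 ≤ i → G.Adj (if D.parent i = m then w else x (D.parent i)) (if i = m then w else x i))
        by_cases him : i = m
        · subst him
          rw [if_pos rfl, if_neg (by omega)]
          refine ⟨?_, fun _ => hw1⟩
          rw [hw2]
        · rw [if_neg him]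
          have hi' : i < m := by omega
          refine ⟨(hx i hi' hin).1, fun h3 => ?_⟩
          have := hD.2 i hin h3
          rw [if_neg (by omega)]
          exact (hx i hi' hin).2 h3
    · refine ⟨x, x0, x1, x2, ?_⟩
      intro i hi hin
      by_cases him : i = m
      · subst him
        have h3 : i < 3 := by
          by_contra h
          exact hm ⟨by omega, hin⟩
        refine ⟨?_, fun h => by omega⟩
        interval_cases i
        · rw [x0, h0]
        · rw [x1, h1]
        · rw [x2, h2]
      · exact hx i (by omega) hin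

end Q53.Frozen
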